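import Mathlib

set_option autoImplicit false

/-!
# The tree stabbing number is not monotone

The configuration `S` consists of the six points `(0,0)`, `(0,1)`, `(0,2)`, `(-1,-1)`, `(-2,-2)`,
`(1,-1)`. The tree consisting of three straight arms issuing from `(0,0)` shows that its tree
stabbing number is at most `2`. The subconfiguration `S'` obtained by deleting `(0,0)` has tree
stabbing number at least `3`: the point `(1,-1)` can be separated, together with any one of the four
other points, from the remaining three points by a line, and the sum over these four lines of the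
numbers of stabbed edges of a spanning tree is `8` plus the degree of `(1,-1)`.
-/

namespace Pool.Agent.Results.MP_3f72ec_co.NotMonotone

open Finset

/-- The Euclidean plane. -/
abbrev Plane : Type := EuclideanSpace ℝ (Fin 2)

/-- `L` is a line of the plane. -/
def IsLine (L : Set Plane) : Prop :=
  ∃ a b c : ℝ, (a ≠ 0 ∨ b ≠ 0) ∧ L = {p : Plane | a * p 0 + b * p 1 = c}

/-- The line `L` stabs the closed segment joining `u` and `v`: they have exactly one common point,
and that point lies in the relative interior of the segment. -/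
def Stabs (L : Set Plane) (u v : Plane) : Prop :=
  ∃ p ∈ openSegment ℝ u v, L ∩ segment ℝ u v = {p}

/-- The set of the edges of the graph `G`, whose vertices are the points of the configuration `S`,
that are stabbed by `L`. -/
def stabbedEdges {S : Finset Plane} (G : SimpleGraph S) (L : Set Plane) : Set (Sym2 S) :=
  {e | e ∈ G.edgeSet ∧ ∃ u v : S, e = s(u, v) ∧ Stabs L u v}

/-- The stabbing number of a graph whose vertices are the points of a configuration: the largest
number of edges stabbed by one line. -/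
noncomputable def stabbingNumber {S : Finset Plane} (G : SimpleGraph S) : ℕ :=
  sSup {k : ℕ | ∃ L : Set Plane, IsLine L ∧ k = (stabbedEdges G L).ncard}

/-- The tree stabbing number of the configuration `S`: the smallest stabbing number of a tree whose
vertices are the points of `S`. -/
noncomputable def treeStab (S : Finset Plane) : ℕ :=
  sInf {k : ℕ | ∃ T : SimpleGraph S, T.IsTree ∧ k = stabbingNumber T}

/-! ### Stabbing and signs -/

/-- the affine function whose zero set is the line -/
def val (a b c : ℝ) (p : Plane) : ℝ := a * p 0 + b * p 1 - c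

lemma val_comb (a b c : ℝ) (u v : Plane) (s t : ℝ) (hst : s + t = 1) :
    val a b c (s • u + t • v) = s * val a b c u + t * val a b c v := by
  simp only [val, PiLp.add_apply, PiLp.smul_apply, smul_eq_mul]
  have : c = s * c + t * c := by rw [← add_mul, hst, one_mul]
  linear_combination (-1 : ℝ) * this

lemma sign_of_stabs {a b c : ℝ} {u v : Plane} (huv : u ≠ v)
    (h : Stabs {p : Plane | a * p 0 + b * p 1 = c} u v) : val a b c u * val a b c v < 0 := by
  obtain ⟨p, ⟨s, t, hs, ht, hst, hp⟩, hL⟩ := h
  have hpL : p ∈ {p : Plane | a * p 0 + b * p 1 = c} ∩ segment ℝ u v := by rw [hL]; rfl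
  have h0 : val a b c p = 0 := by
    have := hpL.1
    simp only [Set.mem_ofPred_eq] at this
    simp only [val]; linarith
  rw [← hp, val_comb a b c u v s t hst] at h0
  by_contra hcon
  push Not at hcon
  -- then both values vanish
  have hu : val a b c u = 0 := by
    by_contra hu
    have h1 : s * (val a b c u) ^ 2 + t * (val a b c u * val a b c v) = 0 := by
      linear_combination (val a b c u) * h0
    have h2 : 0 < s * (val a b c u) ^ 2 := by positivity
    have h3 : 0 ≤ t * (val a b c u * val a b c v) := mul_nonneg ht.le hcon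
    linarith
  have hv : val a b c v = 0 := by
    rw [hu, mul_zero, zero_add] at h0
    rcases mul_eq_zero.1 h0 with h | h
    · exact absurd h ht.ne'
    · exact h
  have e1 : u ∈ ({p} : Set Plane) := by
    rw [← hL]
    refine ⟨?_, left_mem_segment ℝ u v⟩
    simp only [val] at hu
    simp only [Set.mem_ofPred_eq]; linarith
  have e2 : v ∈ ({p} : Set Plane) := by
    rw [← hL]
    refine ⟨?_, right_mem_segment ℝ u v⟩
    simp only [val] at hv
    simp only [Set.mem_ofPred_eq]; linarith
  exact huv ((Set.mem_singleton_iff.1 e1).trans (Set.mem_singleton_iff.1 e2).symm)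

lemma stabs_of_sign {a b c : ℝ} {u v : Plane} (hu : 0 < val a b c u) (hv : val a b c v < 0) :
    Stabs {p : Plane | a * p 0 + b * p 1 = c} u v := by
  set U := val a b c u with hU
  set V := val a b c v with hV
  have hd : 0 < U - V := by linarith
  refine ⟨(-V / (U - V)) • u + (U / (U - V)) • v, ⟨-V / (U - V), U / (U - V), by
    apply div_pos <;> linarith, by positivity, by field_simp; ring, rfl⟩, ?_⟩
  apply Set.Subset.antisymm
  · rintro q ⟨hq, s, t, hs, ht, hst, rfl⟩
    have h0 : val a b c (s • u + t • v) = 0 := by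
      simp only [Set.mem_ofPred_eq] at hq
      simp only [val]; linarith
    rw [val_comb a b c u v s t hst, ← hU, ← hV] at h0
    have hs' : s = -V / (U - V) := by
      rw [eq_div_iff hd.ne']
      have : t = 1 - s := by linarith
      subst this
      linarith
    have ht' : t = U / (U - V) := by
      rw [eq_div_iff hd.ne']
      have : s = 1 - t := by linarith
      subst this
      linarith
    rw [hs', ht']; rfl
  · rintro q rfl
    refine ⟨?_, ⟨-V / (U - V), U / (U - V), by
      apply div_nonneg <;> linarith, by positivity, by field_simp; ring, rfl⟩⟩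
    have h1 : val a b c ((-V / (U - V)) • u + (U / (U - V)) • v) = 0 := by
      rw [val_comb a b c u v _ _ (by field_simp; ring), ← hU, ← hV]
      field_simp; ring
    simp only [val] at h1
    simp only [Set.mem_ofPred_eq]; linarith

lemma Stabs.symm {L : Set Plane} {u v : Plane} (h : Stabs L u v) : Stabs L v u := by
  obtain ⟨p, hp, hL⟩ := h
  exact ⟨p, by rw [openSegment_symm]; exact hp, by rw [segment_symm]; exact hL⟩

/-! ### General facts on the stabbing number -/

lemma bddAbove {S : Finset Plane} (G : SimpleGraph S) :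
    BddAbove {k : ℕ | ∃ L : Set Plane, IsLine L ∧ k = (stabbedEdges G L).ncard} := by
  refine ⟨Nat.card (Sym2 S), ?_⟩
  rintro k ⟨L, -, rfl⟩
  exact Set.ncard_le_card _

lemma le_stabbingNumber {S : Finset Plane} (G : SimpleGraph S) (L : Set Plane) (hL : IsLine L)
    (F : Finset (Sym2 S)) (hF : ∀ e ∈ F, e ∈ stabbedEdges G L) : F.card ≤ stabbingNumber G := by
  have h1 : F.card ≤ (stabbedEdges G L).ncard := by
    rw [← Set.ncard_coe_finset F]
    exact Set.ncard_le_ncard (fun e he => hF e (by simpa using he)) (Set.toFinite _)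
  exact h1.trans (le_csSup (bddAbove G) ⟨L, hL, rfl⟩)

/-! ### The configuration with the centre -/

/-- the six points -/
def pt : Fin 6 → Plane := ![!₂[0, 0], !₂[0, 1], !₂[0, 2], !₂[-1, -1], !₂[-2, -2], !₂[1, -1]]

lemma pt_inj : Function.Injective pt := by
  intro i j h
  have h0 : pt i 0 = pt j 0 := by rw [h]
  have h1 : pt i 1 = pt j 1 := by rw [h]
  fin_cases i <;> fin_cases j <;>
    first
    | rfl
    | (exfalso; simp [pt] at h0; done)
    | (exfalso; simp [pt] at h1; done)
    | (exfalso; norm_num [pt] at h0)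

/-- the configuration of six points -/
def S6 : Finset Plane := Finset.univ.map ⟨pt, pt_inj⟩

/-- the configuration of the five points other than the origin -/
def S5 : Finset Plane := (Finset.univ.erase (0 : Fin 6)).map ⟨pt, pt_inj⟩

/-- the vertices of the first configuration -/
noncomputable def e6 : Fin 6 ≃ S6 :=
  Equiv.ofBijective (fun i => ⟨pt i, by simp [S6]⟩) ⟨fun i j h => pt_inj (congrArg Subtype.val h), by
    rintro ⟨p, hp⟩
    simp only [S6, Finset.mem_map, Finset.mem_univ, true_and, Function.Embedding.coeFn_mk] at hp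
    obtain ⟨i, hi⟩ := hp
    exact ⟨i, Subtype.ext hi⟩⟩

lemma e6_coe (i : Fin 6) : (e6 i : Plane) = pt i := rfl

/-- three arms -/
def G6 : SimpleGraph (Fin 6) :=
  SimpleGraph.fromEdgeSet {s(0, 1), s(1, 2), s(0, 3), s(3, 4), s(0, 5)}

lemma G6_adj (i j : Fin 6) : G6.Adj i j ↔
    (s(i, j) = s(0, 1) ∨ s(i, j) = s(1, 2) ∨ s(i, j) = s(0, 3) ∨ s(i, j) = s(3, 4) ∨
      s(i, j) = s(0, 5)) ∧ i ≠ j := by
  simp [G6, SimpleGraph.fromEdgeSet_adj]

instance : DecidableRel G6.Adj := fun i j => decidable_of_iff _ (G6_adj i j).symm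

lemma G6_tree : G6.IsTree := by
  rw [SimpleGraph.isTree_iff_connected_and_card]
  constructor
  · rw [SimpleGraph.connected_iff_exists_forall_reachable]
    refine ⟨0, ?_⟩
    have h01 : G6.Adj 0 1 := by decide
    have h12 : G6.Adj 1 2 := by decide
    have h03 : G6.Adj 0 3 := by decide
    have h34 : G6.Adj 3 4 := by decide
    have h05 : G6.Adj 0 5 := by decide
    intro w
    fin_cases w
    · exact SimpleGraph.Reachable.refl _
    · exact h01.reachable
    · exact h01.reachable.trans h12.reachable
    · exact h03.reachable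
    · exact h03.reachable.trans h34.reachable
    · exact h05.reachable
  · rw [Nat.card_eq_fintype_card, Nat.card_eq_fintype_card, ← SimpleGraph.edgeFinset_card]
    decide

/-- the tree with three arms, on the first configuration -/
noncomputable def T6 : SimpleGraph S6 := G6.map e6.toEmbedding

lemma T6_tree : T6.IsTree := (SimpleGraph.Iso.map e6 G6).isTree_iff.1 G6_tree

lemma T6_stab (L : Set Plane) (hL : IsLine L) : (stabbedEdges T6 L).ncard ≤ 2 := by
  obtain ⟨a, b, c, -, rfl⟩ := hL
  have key : ∀ i j : Fin 6, i ≠ j → Stabs {p : Plane | a * p 0 + b * p 1 = c} (e6 i) (e6 j) →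
      val a b c (pt i) * val a b c (pt j) < 0 := by
    intro i j hij h
    exact sign_of_stabs (fun h' => hij (pt_inj h')) h
  have h0 : val a b c (pt 0) = -c := by simp [val, pt]
  have h1 : val a b c (pt 1) = b - c := by simp [val, pt]
  have h2 : val a b c (pt 2) = 2 * b - c := by simp [val, pt]; ring
  have h3 : val a b c (pt 3) = -a - b - c := by simp [val, pt]; ring
  have h4 : val a b c (pt 4) = -2 * a - 2 * b - c := by simp [val, pt]; ring
  have h5 : val a b c (pt 5) = a - b - c := by simp [val, pt]; ring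
  have hsub : ∀ x ∈ stabbedEdges T6 {p : Plane | a * p 0 + b * p 1 = c},
      (x = s(e6 0, e6 1) ∧ -c * (b - c) < 0) ∨ (x = s(e6 1, e6 2) ∧ (b - c) * (2 * b - c) < 0) ∨
      (x = s(e6 0, e6 3) ∧ -c * (-a - b - c) < 0) ∨
      (x = s(e6 3, e6 4) ∧ (-a - b - c) * (-2 * a - 2 * b - c) < 0) ∨
      (x = s(e6 0, e6 5) ∧ -c * (a - b - c) < 0) := by
    rintro x ⟨hx, u, v, rfl, hs⟩
    obtain ⟨i, rfl⟩ := e6.surjective u
    obtain ⟨j, rfl⟩ := e6.surjective v
    have hadj : G6.Adj i j := by
      rw [SimpleGraph.mem_edgeSet] at hx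
      exact (SimpleGraph.Iso.map e6 G6).map_adj_iff.1 hx
    rw [G6_adj] at hadj
    obtain ⟨hor, hne⟩ := hadj
    have hk := key i j hne hs
    have main : ∀ k l : Fin 6, s(i, j) = s(k, l) →
        s(e6 i, e6 j) = s(e6 k, e6 l) ∧ val a b c (pt k) * val a b c (pt l) < 0 := by
      intro k l h
      rw [Sym2.eq_iff] at h
      rcases h with ⟨rfl, rfl⟩ | ⟨rfl, rfl⟩
      · exact ⟨rfl, hk⟩
      · exact ⟨Sym2.eq_swap, by rw [mul_comm]; exact hk⟩
    rcases hor with h | h | h | h | h
    · left; have := main _ _ h; rw [h0, h1] at this; exact this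
    · right; left; have := main _ _ h; rw [h1, h2] at this; exact this
    · right; right; left; have := main _ _ h; rw [h0, h3] at this; exact this
    · right; right; right; left; have := main _ _ h; rw [h3, h4] at this; exact this
    · right; right; right; right; have := main _ _ h; rw [h0, h5] at this; exact this
  have two : ∀ x y : Sym2 S6, (∀ z ∈ stabbedEdges T6 {p : Plane | a * p 0 + b * p 1 = c},
      z = x ∨ z = y) → (stabbedEdges T6 {p : Plane | a * p 0 + b * p 1 = c}).ncard ≤ 2 := by
    intro x y h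
    have : stabbedEdges T6 {p : Plane | a * p 0 + b * p 1 = c} ⊆ {x, y} := fun z hz => h z hz
    refine (Set.ncard_le_ncard this (Set.toFinite _)).trans ?_
    refine (Set.ncard_insert_le x {y}).trans ?_
    rw [Set.ncard_singleton]
  -- at most one edge of each arm is stabbed
  have nA : ¬(-c * (b - c) < 0 ∧ (b - c) * (2 * b - c) < 0) := by
    rintro ⟨q1, q2⟩; nlinarith [sq_nonneg (b - c)]
  have nB : ¬(-c * (-a - b - c) < 0 ∧ (-a - b - c) * (-2 * a - 2 * b - c) < 0) := by
    rintro ⟨q1, q2⟩; nlinarith [sq_nonneg (-a - b - c)]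
  -- not all arms are stabbed
  have nABC : ¬((-c * (b - c) < 0 ∨ (b - c) * (2 * b - c) < 0) ∧
      (-c * (-a - b - c) < 0 ∨ (-a - b - c) * (-2 * a - 2 * b - c) < 0) ∧
      -c * (a - b - c) < 0) := by
    rintro ⟨qA, qB, qC⟩
    have hA : -c * (2 * b - c) < 0 := by
      rcases qA with q | q
      · nlinarith [sq_nonneg c]
      · nlinarith [sq_nonneg (2 * b - c)]
    have hB : -c * (-2 * a - 2 * b - c) < 0 := by
      rcases qB with q | q
      · nlinarith [sq_nonneg c]
      · nlinarith [sq_nonneg (-2 * a - 2 * b - c)]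
    nlinarith [sq_nonneg c]
  by_cases qC : -c * (a - b - c) < 0
  · by_cases qA : (-c * (b - c) < 0 ∨ (b - c) * (2 * b - c) < 0)
    · have qB : ¬(-c * (-a - b - c) < 0 ∨ (-a - b - c) * (-2 * a - 2 * b - c) < 0) :=
        fun h => nABC ⟨qA, h, qC⟩
      by_cases q1 : -c * (b - c) < 0
      · refine two s(e6 0, e6 1) s(e6 0, e6 5) fun z hz => ?_
        rcases hsub z hz with h | h | h | h | h
        · exact Or.inl h.1
        · exact absurd ⟨q1, h.2⟩ nA
        · exact absurd (Or.inl h.2) qB
        · exact absurd (Or.inr h.2) qB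
        · exact Or.inr h.1
      · refine two s(e6 1, e6 2) s(e6 0, e6 5) fun z hz => ?_
        rcases hsub z hz with h | h | h | h | h
        · exact absurd h.2 q1
        · exact Or.inl h.1
        · exact absurd (Or.inl h.2) qB
        · exact absurd (Or.inr h.2) qB
        · exact Or.inr h.1
    · by_cases q3 : -c * (-a - b - c) < 0
      · refine two s(e6 0, e6 3) s(e6 0, e6 5) fun z hz => ?_
        rcases hsub z hz with h | h | h | h | h
        · exact absurd (Or.inl h.2) qA
        · exact absurd (Or.inr h.2) qA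
        · exact Or.inl h.1
        · exact absurd ⟨q3, h.2⟩ nB
        · exact Or.inr h.1
      · refine two s(e6 3, e6 4) s(e6 0, e6 5) fun z hz => ?_
        rcases hsub z hz with h | h | h | h | h
        · exact absurd (Or.inl h.2) qA
        · exact absurd (Or.inr h.2) qA
        · exact absurd h.2 q3
        · exact Or.inl h.1
        · exact Or.inr h.1
  · by_cases q1 : -c * (b - c) < 0 <;> by_cases q3 : -c * (-a - b - c) < 0
    · refine two s(e6 0, e6 1) s(e6 0, e6 3) fun z hz => ?_
      rcases hsub z hz with h | h | h | h | h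
      · exact Or.inl h.1
      · exact absurd ⟨q1, h.2⟩ nA
      · exact Or.inr h.1
      · exact absurd ⟨q3, h.2⟩ nB
      · exact absurd h.2 qC
    · refine two s(e6 0, e6 1) s(e6 3, e6 4) fun z hz => ?_
      rcases hsub z hz with h | h | h | h | h
      · exact Or.inl h.1
      · exact absurd ⟨q1, h.2⟩ nA
      · exact absurd h.2 q3
      · exact Or.inr h.1
      · exact absurd h.2 qC
    · refine two s(e6 1, e6 2) s(e6 0, e6 3) fun z hz => ?_
      rcases hsub z hz with h | h | h | h | h
      · exact absurd h.2 q1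
      · exact Or.inl h.1
      · exact Or.inr h.1
      · exact absurd ⟨q3, h.2⟩ nB
      · exact absurd h.2 qC
    · refine two s(e6 1, e6 2) s(e6 3, e6 4) fun z hz => ?_
      rcases hsub z hz with h | h | h | h | h
      · exact absurd h.2 q1
      · exact Or.inl h.1
      · exact absurd h.2 q3
      · exact Or.inr h.1
      · exact absurd h.2 qC

lemma treeStab_S6 : treeStab S6 ≤ 2 := by
  have h : treeStab S6 ≤ stabbingNumber T6 := Nat.sInf_le ⟨T6, T6_tree, rfl⟩
  refine h.trans ?_
  unfold stabbingNumber
  apply csSup_le'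
  rintro k ⟨L, hL, rfl⟩
  exact T6_stab L hL

/-! ### The configuration without the centre -/

/-- the five points -/
def qt (i : Fin 5) : Plane := pt i.succ

lemma qt_inj : Function.Injective qt := pt_inj.comp (Fin.succ_injective 5)

/-- the vertices of the second configuration -/
noncomputable def e5 : Fin 5 ≃ S5 :=
  Equiv.ofBijective (fun i => ⟨qt i, by
      rw [S5, Finset.mem_map]
      exact ⟨i.succ, by simp [Fin.succ_ne_zero], rfl⟩⟩)
    ⟨fun i j h => qt_inj (congrArg Subtype.val h), by
      rintro ⟨p, hp⟩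
      simp only [S5, Finset.mem_map, Finset.mem_erase, Finset.mem_univ, and_true,
        Function.Embedding.coeFn_mk] at hp
      obtain ⟨i, hi0, hi⟩ := hp
      exact ⟨i.pred hi0, Subtype.ext (by simp only [qt, Fin.succ_pred]; exact hi)⟩⟩

lemma e5_coe (i : Fin 5) : (e5 i : Plane) = qt i := rfl

open Classical in
/-- The edges of a graph that cross a cut of the five points realized by a line are stabbed by
that line. -/
lemma cut_le (T : SimpleGraph S5) (H : SimpleGraph (Fin 5)) (hH : H = T.comap e5) (a b c : ℝ) (hab : a ≠ 0 ∨ b ≠ 0) (x : Fin 5)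
    (hpos : ∀ i, (i = x ∨ i = 4) → 0 < val a b c (qt i))
    (hneg : ∀ i, ¬(i = x ∨ i = 4) → val a b c (qt i) < 0) :
    ∑ i, ∑ j, (if (i = x ∨ i = 4) ∧ ¬(j = x ∨ j = 4) ∧ H.Adj i j then 1 else 0) ≤
      stabbingNumber T := by
  rw [← Fintype.sum_prod_type' (f := fun i j : Fin 5 =>
    if (i = x ∨ i = 4) ∧ ¬(j = x ∨ j = 4) ∧ H.Adj i j then 1 else 0), ← Finset.card_filter]
  set F := (Finset.univ : Finset (Fin 5 × Fin 5)).filter (fun p => (p.1 = x ∨ p.1 = 4) ∧
      ¬(p.2 = x ∨ p.2 = 4) ∧ H.Adj p.1 p.2) with hF
  have hinj : Set.InjOn (fun p : Fin 5 × Fin 5 => s(e5 p.1, e5 p.2)) (F : Set (Fin 5 × Fin 5)) := by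
    rintro ⟨i, j⟩ hij ⟨k, l⟩ hkl h
    simp only [hF, Finset.coe_filter, Finset.mem_univ, true_and] at hij hkl
    simp only [Sym2.eq_iff] at h
    rcases h with ⟨h1, h2⟩ | ⟨h1, h2⟩
    · rw [e5.injective h1, e5.injective h2]
    · have e1 := e5.injective h1
      subst e1
      exact absurd hij.1 hkl.2.1
  rw [← Finset.card_image_of_injOn hinj]
  refine le_stabbingNumber T {p : Plane | a * p 0 + b * p 1 = c} ⟨a, b, c, hab, rfl⟩ _ ?_
  intro e he
  rw [Finset.mem_image] at he
  obtain ⟨⟨i, j⟩, hij, rfl⟩ := he
  rw [hF, Finset.mem_filter] at hij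
  obtain ⟨-, h1, h2, h3⟩ := hij
  refine ⟨?_, e5 i, e5 j, rfl, stabs_of_sign (hpos i h1) (hneg j h2)⟩
  rw [hH] at h3
  exact h3

open Classical in
lemma three_le (T : SimpleGraph S5) (hT : T.IsTree) : 3 ≤ stabbingNumber T := by
  set H : SimpleGraph (Fin 5) := T.comap e5 with hH
  have hHT : H.IsTree := (SimpleGraph.Iso.comap e5 T).isTree_iff.2 hT
  have q0 : qt 0 = !₂[0, 1] := rfl
  have q1 : qt 1 = !₂[0, 2] := rfl
  have q2 : qt 2 = !₂[-1, -1] := rfl
  have q3 : qt 3 = !₂[-2, -2] := rfl
  have q4 : qt 4 = !₂[1, -1] := rfl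
  have c0 := cut_le T H hH 6 (-2) (-3) (by norm_num) 0
    (by intro i hi; fin_cases i <;> simp_all [val] <;> norm_num)
    (by intro i hi; fin_cases i <;> simp_all [val] <;> norm_num)
  have c1 := cut_le T H hH 6 2 3 (by norm_num) 1
    (by intro i hi; fin_cases i <;> simp_all [val] <;> norm_num)
    (by intro i hi; fin_cases i <;> simp_all [val] <;> norm_num)
  have c2 := cut_le T H hH 6 (-4) (-3) (by norm_num) 2
    (by intro i hi; fin_cases i <;> simp_all [val] <;> norm_num)
    (by intro i hi; fin_cases i <;> simp_all [val] <;> norm_num)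
  have c3 := cut_le T H hH 2 (-4) 3 (by norm_num) 3
    (by intro i hi; fin_cases i <;> simp_all [val] <;> norm_num)
    (by intro i hi; fin_cases i <;> simp_all [val] <;> norm_num)
  simp only [Fin.sum_univ_five] at c0 c1 c2 c3
  have hE : H.edgeFinset.card = 4 := by
    have := hHT.card_edgeFinset
    simp only [Fintype.card_fin] at this
    omega
  have hdeg : ∀ v, H.degree v = ∑ j, if H.Adj v j then 1 else 0 := by
    intro v
    rw [← SimpleGraph.card_neighborFinset_eq_degree, SimpleGraph.neighborFinset_eq_filter,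
      Finset.card_filter]
  have hsum := H.sum_degrees_eq_twice_card_edges
  rw [hE] at hsum
  have h4 : 0 < H.degree 4 := hHT.connected.preconnected.degree_pos_of_nontrivial 4
  rw [hdeg] at h4
  simp only [hdeg, Fin.sum_univ_five] at hsum h4
  simp only [H.adj_comm 1 0, H.adj_comm 2 0, H.adj_comm 2 1, H.adj_comm 3 0, H.adj_comm 3 1,
    H.adj_comm 3 2, H.adj_comm 4 0, H.adj_comm 4 1, H.adj_comm 4 2, H.adj_comm 4 3,
    SimpleGraph.irrefl, if_false] at hsum h4 c0 c1 c2 c3
  simp at c0 c1 c2 c3
  generalize (if H.Adj 0 1 then 1 else 0) = n01 at *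
  generalize (if H.Adj 0 2 then 1 else 0) = n02 at *
  generalize (if H.Adj 0 3 then 1 else 0) = n03 at *
  generalize (if H.Adj 0 4 then 1 else 0) = n04 at *
  generalize (if H.Adj 1 2 then 1 else 0) = n12 at *
  generalize (if H.Adj 1 3 then 1 else 0) = n13 at *
  generalize (if H.Adj 1 4 then 1 else 0) = n14 at *
  generalize (if H.Adj 2 3 then 1 else 0) = n23 at *
  generalize (if H.Adj 2 4 then 1 else 0) = n24 at *
  generalize (if H.Adj 3 4 then 1 else 0) = n34 at *
  omega

lemma treeStab_S5 : 3 ≤ treeStab S5 := by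
  have hne : {k : ℕ | ∃ T : SimpleGraph S5, T.IsTree ∧ k = stabbingNumber T}.Nonempty := by
    have : Nonempty S5 := ⟨e5 0⟩
    obtain ⟨T, -, hT⟩ := (SimpleGraph.connected_top (V := S5)).exists_isTree_le
    exact ⟨_, T, hT, rfl⟩
  obtain ⟨T, hT, h⟩ := Nat.sInf_mem hne
  unfold treeStab
  rw [h]
  exact three_le T hT

/-- There are configurations `S' ⊆ S` with `TREE-STAB(S) ≤ 2 < 3 ≤ TREE-STAB(S')`: the tree stabbing
number is not monotone. -/
theorem result : ∃ S' S : Finset Plane, S'.Nonempty ∧ S' ⊆ S ∧ treeStab S ≤ 2 ∧ 3 ≤ treeStab S' :=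
  ⟨S5, S6, ⟨_, (e5 0).2⟩, Finset.map_subset_map.2 (Finset.erase_subset _ _), treeStab_S6,
    treeStab_S5⟩

end Pool.Agent.Results.MP_3f72ec_co.NotMonotone
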